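import Pool.Agent.W221.NS.Stm

/-!
MD-HB: the gradient of the almost linear part of the pressure.
-/

set_option autoImplicit false
set_option linter.unusedSectionVars false

open MeasureTheory Set Metric
open scoped ContDiff

namespace Pool.Agent.W839.MD

open H459R3.NS W221.NS

lemma th_smooth : ContDiff ℝ ∞ th := bmp.contDiff_normed

lemma th_nonneg (z : V) : 0 ≤ th z := bmp.nonneg_normed z

lemma th_int : ∫ z, th z = 1 := bmp.integral_normed

lemma th_zero {z : V} (hz : z ∉ ball (0 : V) 1) : th z = 0 := by
  have h : Function.support (bmp.normed volume : V → ℝ) = ball (0 : V) 1 := bmp.support_normed_eq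
  by_contra h1
  exact hz (h ▸ (Function.mem_support.2 h1))

lemma th_cs : HasCompactSupport th := bmp.hasCompactSupport_normed

lemma pd_smooth {f : V → ℝ} (hf : ContDiff ℝ ∞ f) (i : Fin 3) : ContDiff ℝ ∞ (pd i f) := by
  unfold pd
  exact (hf.fderiv_right (m := ∞) (by simp)).clm_apply contDiff_const

lemma pd_th_zero {z : V} (hz : z ∉ ball (0 : V) 1) (i : Fin 3) : pd i th z = 0 := by
  have h1 : IsLocalMin th z := Filter.Eventually.of_forall fun y => by
    rw [th_zero hz]
    exact th_nonneg y
  unfold pd
  rw [h1.fderiv_eq_zero]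
  rfl

/-- The norm of a linear form. -/
lemma clm_norm_le (L : V →L[ℝ] ℝ) (G : ℝ) (hL : ∀ i, |L (Pi.single i 1)| ≤ G) :
    ‖L‖ ≤ 3 * G := by
  have hG : 0 ≤ G := (abs_nonneg _).trans (hL 0)
  refine L.opNorm_le_bound (by positivity) fun w => ?_
  have h1 : w = ∑ i, w i • (Pi.single i (1 : ℝ) : V) := by
    ext j
    rw [Finset.sum_apply, Finset.sum_eq_single j]
    · simp
    · intro b _ hb
      simp [Pi.single_eq_of_ne hb.symm]
    · intro h
      exact absurd (Finset.mem_univ j) h
  have h2 : L w = ∑ i, w i * L (Pi.single i 1) := by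
    conv_lhs => rw [h1]
    rw [map_sum]
    exact Finset.sum_congr rfl fun i _ => by rw [map_smul, smul_eq_mul]
  rw [h2]
  calc ‖∑ i, w i * L (Pi.single i 1)‖ ≤ ∑ i, ‖w i * L (Pi.single i 1)‖ := norm_sum_le _ _
    _ ≤ ∑ _i : Fin 3, ‖w‖ * G := by
        refine Finset.sum_le_sum fun i _ => ?_
        rw [norm_mul]
        exact mul_le_mul (norm_le_pi_norm w i) (hL i) (norm_nonneg _) (norm_nonneg _)
    _ = 3 * G * ‖w‖ := by
        rw [Finset.sum_const, Finset.card_univ, Fintype.card_fin]
        simp only [nsmul_eq_mul]
        push_cast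
        ring

theorem t_HB : S_HB := by
  classical
  set K : Fin 3 → ℝ := fun i => ∫ x in ball (0 : V) 1, pd i th x ^ 2 with hK
  have hK0 : ∀ i, 0 ≤ K i := fun i => integral_nonneg fun x => sq_nonneg _
  have hKs : 0 ≤ ∑ i, K i := Finset.sum_nonneg fun i _ => hK0 i
  refine ⟨10 + ∑ i, K i, by positivity, ?_⟩
  intro v q P G h z hz i
  have hG : 0 ≤ G := by
    refine le_trans ?_ h.grad
    refine integral_nonneg fun x => ?_
    exact Finset.sum_nonneg fun i _ => Finset.sum_nonneg fun j _ => sq_nonneg _
  set g : V → ℝ := pd i (fun x => q x - P x) with hg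
  have hgs : ContDiff ℝ ∞ g := pd_smooth (h.sq.sub h.sP) i
  have hgd : Differentiable ℝ g := hgs.differentiable (by simp)
  have hqd : Differentiable ℝ q := h.sq.differentiable (by simp)
  have hPd : Differentiable ℝ P := h.sP.differentiable (by simp)
  have hthd : Differentiable ℝ th := th_smooth.differentiable (by simp)
  have hgsub : ∀ y, g y = pd i q y - pd i P y := by
    intro y
    rw [hg]
    unfold pd
    have h1 := fderiv_sub (hqd y) (hPd y)
    have h2 : (fun x => q x - P x) = q - P := rfl
    rw [h2, h1]
    rfl
  -- the mean value inequality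
  have hmv : ∀ y ∈ ball (0 : V) 1, |g z - g y| ≤ 6 * G := by
    intro y hy
    have h1 := (convex_ball (0 : V) 1).norm_image_sub_le_of_norm_fderiv_le
      (f := g) (C := 3 * G) (fun x _ => hgd x) (fun x hx => clm_norm_le _ G fun j => by
        have h2 := h.hess x hx j i
        exact h2) hy hz
    rw [Real.norm_eq_abs] at h1
    have h2 : ‖z - y‖ ≤ 2 := by
      have h3 : ‖z‖ < 1 := by simpa using hz
      have h4 : ‖y‖ < 1 := by simpa using hy
      have h5 := norm_sub_le z y
      linarith
    have h3 : 3 * G * ‖z - y‖ ≤ 3 * G * 2 := mul_le_mul_of_nonneg_left h2 (by positivity)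
    linarith
  -- integrability
  have hint : ∀ f : V → ℝ, Continuous f → Integrable (fun y => th y * f y) := by
    intro f hf
    exact (th_smooth.continuous.mul hf).integrable_of_hasCompactSupport (th_cs.mul_right)
  have hav : |g z - ∫ y, th y * g y| ≤ 6 * G := by
    have h1 : g z = ∫ y, th y * g z := by
      rw [integral_mul_const, th_int, one_mul]
    have h2 : g z - ∫ y, th y * g y = ∫ y, th y * (g z - g y) := by
      have h3 : ∫ y, th y * (g z - g y) = (∫ y, th y * g z) - ∫ y, th y * g y := by
        rw [← integral_sub (hint _ continuous_const) (hint _ hgs.continuous)]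
        refine integral_congr_ae (Filter.Eventually.of_forall fun y => ?_)
        change th y * (g z - g y) = th y * g z - th y * g y
        ring
      rw [h3, ← h1]
    rw [h2]
    calc |∫ y, th y * (g z - g y)| ≤ ∫ y, |th y * (g z - g y)| := abs_integral_le_integral_abs
      _ ≤ ∫ y, th y * (6 * G) := by
          refine integral_mono ((hint _ (continuous_const.sub hgs.continuous)).abs)
            (hint _ continuous_const) fun y => ?_
          change |th y * (g z - g y)| ≤ th y * (6 * G)
          rw [abs_mul, abs_of_nonneg (th_nonneg y)]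
          by_cases hy : y ∈ ball (0 : V) 1
          · exact mul_le_mul_of_nonneg_left (hmv y hy) (th_nonneg y)
          · rw [th_zero hy, zero_mul, zero_mul]
      _ = 6 * G := by rw [integral_mul_const, th_int, one_mul]
  -- the weighted mean
  have hsplit : ∫ y, th y * g y = (∫ y, th y * pd i q y) - ∫ y, th y * pd i P y := by
    rw [← integral_sub (hint _ (pd_smooth h.sq i).continuous)
      (hint _ (pd_smooth h.sP i).continuous)]
    refine integral_congr_ae (Filter.Eventually.of_forall fun y => ?_)
    change th y * g y = th y * pd i q y - th y * pd i P y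
    rw [hgsub]
    ring
  have hcs' : HasCompactSupport (pd i th) := by
    refine HasCompactSupport.of_support_subset_isCompact (isCompact_closedBall (0 : V) 1) ?_
    intro y hy
    by_contra h1
    exact hy (pd_th_zero (fun h2 => h1 (ball_subset_closedBall h2)) i)
  have hint' : ∀ f : V → ℝ, Continuous f → Integrable (fun y => pd i th y * f y) := by
    intro f hf
    exact ((pd_smooth th_smooth i).continuous.mul hf).integrable_of_hasCompactSupport
      (hcs'.mul_right)
  have hibp : ∫ y, th y * pd i P y = -∫ y, pd i th y * P y := by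
    unfold pd
    exact integral_mul_fderiv_eq_neg_fderiv_mul_of_integrable
      (hint' P h.sP.continuous) (hint _ (pd_smooth h.sP i).continuous)
      (hint _ h.sP.continuous) (fun x _ => hthd x) (fun x _ => hPd x)
  have hP : |∫ y, pd i th y * P y| ≤ G * ((K i + 1) / 2) := by
    have h1 : ∫ y, pd i th y * P y = ∫ y in ball (0 : V) 1, pd i th y * P y := by
      rw [setIntegral_eq_integral_of_forall_compl_eq_zero]
      intro y hy
      rw [pd_th_zero hy, zero_mul]
    have hball : IsFiniteMeasure (volume.restrict (ball (0 : V) 1)) :=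
      ⟨by rw [Measure.restrict_apply_univ]; exact measure_ball_lt_top⟩
    have hon : ∀ f : V → ℝ, Continuous f → IntegrableOn f (ball (0 : V) 1) := by
      intro f hf
      exact (hf.continuousOn.integrableOn_compact (isCompact_closedBall (0 : V) 1)).mono_set
        ball_subset_closedBall
    have h2 : ∀ δ : ℝ, 0 < δ → |∫ y, pd i th y * P y| ≤ (G + δ) * ((K i + 1) / 2) := by
      intro δ hδ
      have hl : 0 < G + δ := by linarith
      rw [h1]
      calc |∫ y in ball (0 : V) 1, pd i th y * P y|
          ≤ ∫ y in ball (0 : V) 1, |pd i th y * P y| := abs_integral_le_integral_abs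
        _ ≤ ∫ y in ball (0 : V) 1, ((G + δ) / 2 * pd i th y ^ 2 + (2 * (G + δ))⁻¹ * P y ^ 2) := by
            refine integral_mono_of_nonneg (Filter.Eventually.of_forall fun y => abs_nonneg _)
              ?_ (Filter.Eventually.of_forall fun y => ?_)
            · exact hon _ (((pd_smooth th_smooth i).continuous.pow 2).const_mul _ |>.add
                ((h.sP.continuous.pow 2).const_mul _))
            · change |pd i th y * P y| ≤ (G + δ) / 2 * pd i th y ^ 2 + (2 * (G + δ))⁻¹ * P y ^ 2
              rw [abs_mul, ← sq_abs (pd i th y), ← sq_abs (P y)]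
              have h3 : (G + δ) / 2 * |pd i th y| ^ 2 + (2 * (G + δ))⁻¹ * |P y| ^ 2 -
                  |pd i th y| * |P y| =
                  (2 * (G + δ))⁻¹ * ((G + δ) * |pd i th y| - |P y|) ^ 2 := by
                field_simp
                ring
              have h4 : 0 ≤ (2 * (G + δ))⁻¹ * ((G + δ) * |pd i th y| - |P y|) ^ 2 := by
                positivity
              linarith
        _ = (G + δ) / 2 * K i + (2 * (G + δ))⁻¹ * ∫ y in ball (0 : V) 1, P y ^ 2 := by
            rw [integral_add, integral_const_mul, integral_const_mul]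
            · exact hon _ (((pd_smooth th_smooth i).continuous.pow 2).const_mul _)
            · exact hon _ ((h.sP.continuous.pow 2).const_mul _)
        _ ≤ (G + δ) / 2 * K i + (2 * (G + δ))⁻¹ * (G + δ) ^ 2 := by
            have h3 : ∫ y in ball (0 : V) 1, P y ^ 2 ≤ (G + δ) ^ 2 :=
              h.nP.trans (pow_le_pow_left₀ hG (by linarith) 2)
            have h4 : 0 ≤ (2 * (G + δ))⁻¹ := by positivity
            have h5 := mul_le_mul_of_nonneg_left h3 h4
            linarith
        _ = (G + δ) * ((K i + 1) / 2) := by
            field_simp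
    refine le_of_forall_pos_le_add fun ε hε => ?_
    have hc : 0 < (K i + 1) / 2 := by
      have := hK0 i
      linarith
    have h3 := h2 (ε / ((K i + 1) / 2)) (by positivity)
    rw [add_mul, div_mul_cancel₀ _ hc.ne'] at h3
    exact h3
  have hq := h.force i
  have hKi : K i ≤ ∑ j, K j := Finset.single_le_sum (fun j _ => hK0 j) (Finset.mem_univ i)
  have hs0 : 0 ≤ √G := Real.sqrt_nonneg G
  have e1 : |g z| ≤ 6 * G + (√G + G) + G * ((K i + 1) / 2) := by
    have h1 : g z = (g z - ∫ y, th y * g y) + (∫ y, th y * pd i q y) +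
        ∫ y, pd i th y * P y := by
      rw [hsplit, hibp]
      ring
    rw [h1]
    refine (abs_add_three _ _ _).trans ?_
    linarith
  refine e1.trans ?_
  nlinarith [mul_nonneg hG (hK0 i), mul_nonneg hG hKs, mul_nonneg hs0 hKs,
    mul_le_mul_of_nonneg_left hKi hG]

end Pool.Agent.W839.MD
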